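/-
A cancellative monoid that satisfies the ascending chain condition on principal ideals and is not
acyclic: the submonoid of the integral Heisenberg group, seen as the semidirect product of the plane
lattice and the integers, of the elements `(x, y) t ^ n` with `n > 0`, or `n = 0` and `x ≥ 0`.
-/
import Mathlib

set_option autoImplicit false

open Set

namespace Pool.Agent.Results.MP_1d13cc_al.NotAcyclic

universe u

/-- `H` is unit-cancellative. -/
def UnitCancellative (H : Type u) [Monoid H] : Prop :=
  ∀ x y : H, ¬ IsUnit y → x * y ≠ x ∧ y * x ≠ x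

/-- `H` is acyclic. -/
def Acyclic (H : Type u) [Monoid H] : Prop :=
  ∀ a b x : H, (¬ IsUnit a ∨ ¬ IsUnit b) → a * x * b ≠ x

/-- The principal two-sided ideal `H a H`. -/
def principal {H : Type u} [Monoid H] (a : H) : Set H := {z | ∃ x y : H, z = x * a * y}

/-- The ascending chain condition on principal ideals. -/
def ACCP (H : Type u) [Monoid H] : Prop :=
  ¬ ∃ a : ℕ → H, ∀ k, principal (a k) ⊂ principal (a (k + 1))

/-- the elements `(x, y) t ^ n` -/
@[ext]
structure HM : Type where
  x : ℤ
  y : ℤ
  n : ℕ
  nonneg : n = 0 → 0 ≤ x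

instance : Mul HM := ⟨fun a b => ⟨a.x + b.x + a.n * b.y, a.y + b.y, a.n + b.n, by
  intro h
  have h1 : a.n = 0 := by omega
  have h2 : b.n = 0 := by omega
  have h3 := a.nonneg h1
  have h4 := b.nonneg h2
  rw [h1]
  simp only [Nat.cast_zero, zero_mul, add_zero]
  exact add_nonneg h3 h4⟩⟩

instance : One HM := ⟨⟨0, 0, 0, fun _ => le_rfl⟩⟩

@[simp] theorem mul_x (a b : HM) : (a * b).x = a.x + b.x + a.n * b.y := rfl
@[simp] theorem mul_y (a b : HM) : (a * b).y = a.y + b.y := rfl
@[simp] theorem mul_n (a b : HM) : (a * b).n = a.n + b.n := rfl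
@[simp] theorem one_x : (1 : HM).x = 0 := rfl
@[simp] theorem one_y : (1 : HM).y = 0 := rfl
@[simp] theorem one_n : (1 : HM).n = 0 := rfl

instance : Monoid HM where
  mul_assoc a b c := by
    ext
    · simp only [mul_x, mul_y, mul_n]
      push_cast
      ring
    · simp only [mul_y]
      ring
    · simp only [mul_n]
      ring
  one_mul a := by ext <;> simp
  mul_one a := by ext <;> simp

theorem isUnit_iff (a : HM) : IsUnit a ↔ a.n = 0 ∧ a.x = 0 := by
  constructor
  · intro h
    obtain ⟨b, hb⟩ := h.exists_right_inv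
    have h1 : a.n + b.n = 0 := congrArg HM.n hb
    have h2 : a.x + b.x + a.n * b.y = 0 := congrArg HM.x hb
    have h3 : a.n = 0 := by omega
    have h4 : b.n = 0 := by omega
    have h5 := a.nonneg h3
    have h6 := b.nonneg h4
    rw [h3] at h2
    simp only [Nat.cast_zero, zero_mul, add_zero] at h2
    exact ⟨h3, by omega⟩
  · rintro ⟨h1, h2⟩
    refine ⟨⟨a, ⟨0, -a.y, 0, fun _ => le_rfl⟩, ?_, ?_⟩, rfl⟩
    · ext <;> simp [h1, h2]
    · ext <;> simp [h1, h2]

/-- `HM` is cancellative -/
instance : IsCancelMul HM where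
  mul_left_cancel a b c h := by
    have h1 : a.n + b.n = a.n + c.n := congrArg HM.n h
    have h2 : a.y + b.y = a.y + c.y := congrArg HM.y h
    have h3 : a.x + b.x + a.n * b.y = a.x + c.x + a.n * c.y := congrArg HM.x h
    have h4 : b.y = c.y := by omega
    rw [h4] at h3
    ext
    · omega
    · exact h4
    · omega
  mul_right_cancel a b c h := by
    have h1 : b.n + a.n = c.n + a.n := congrArg HM.n h
    have h2 : b.y + a.y = c.y + a.y := congrArg HM.y h
    have h3 : b.x + a.x + b.n * a.y = c.x + a.x + c.n * a.y := congrArg HM.x h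
    have h4 : b.n = c.n := by omega
    rw [h4] at h3
    ext
    · omega
    · omega
    · exact h4

theorem unitCancellative : UnitCancellative HM := by
  intro x y hy
  constructor
  · intro h
    apply hy
    rw [mul_left_cancel (h.trans (mul_one x).symm)]
    exact isUnit_one
  · intro h
    apply hy
    rw [mul_right_cancel (h.trans (one_mul x).symm)]
    exact isUnit_one

/-- an element of the ideal of `a` has at least the height of `a` -/
theorem height_le {a z : HM} (h : z ∈ principal a) : a.n ≤ z.n := by
  obtain ⟨x, y, rfl⟩ := h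
  simp only [mul_n]
  omega

theorem mem_self (a : HM) : a ∈ principal a := ⟨1, 1, by simp⟩

/-- two elements of the same positive height generate the same ideal -/
theorem mem_of_height {a b : HM} (ha : a.n ≠ 0) (h : a.n = b.n) : b ∈ principal a := by
  have h1 : (1 : ℤ) ≤ a.n := by
    have : 1 ≤ a.n := Nat.one_le_iff_ne_zero.2 ha
    exact_mod_cast this
  refine ⟨⟨(b.x - a.x) + a.n * |b.x - a.x|, b.y - a.y + |b.x - a.x|, 0, fun _ => ?_⟩,
    ⟨0, -|b.x - a.x|, 0, fun _ => le_rfl⟩, ?_⟩
  · have h2 := neg_abs_le (b.x - a.x)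
    have h3 : 1 * |b.x - a.x| ≤ a.n * |b.x - a.x| := mul_le_mul_of_nonneg_right h1 (abs_nonneg _)
    linarith
  · ext
    · simp only [mul_x, mul_n, Nat.cast_zero, zero_mul, zero_add]
      ring
    · simp only [mul_y]
      ring
    · simp only [mul_n]
      omega

theorem principal_subset {a b : HM} (h : a ∈ principal b) : principal a ⊆ principal b := by
  rintro _ ⟨x, y, rfl⟩
  obtain ⟨p, q, rfl⟩ := h
  exact ⟨x * p, q * y, by simp only [mul_assoc]⟩

/-- two elements of height zero, comparison of ideals -/
theorem mem_of_zero {a b : HM} (ha : a.n = 0) (hb : b.n = 0) (h : a.x ≤ b.x) :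
    b ∈ principal a := by
  refine ⟨⟨b.x - a.x, b.y - a.y, 0, fun _ => by omega⟩, 1, ?_⟩
  ext
  · simp only [mul_x, mul_n, Nat.cast_zero, zero_mul, one_x, one_y, mul_zero, add_zero]
    ring
  · simp only [mul_y, one_y]
    ring
  · simp only [mul_n, one_n]
    omega

theorem accp : ACCP HM := by
  rintro ⟨a, ha⟩
  have h1 : ∀ k, a k ∈ principal (a (k + 1)) := fun k => (ha k).1 (mem_self _)
  have h2 : ∀ k, a (k + 1) ∉ principal (a k) := fun k h => (ha k).2 (principal_subset h)
  -- the height does not increase; while it is positive it decreases strictly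
  have h3 : ∀ k, (a (k + 1)).n ≤ (a k).n := fun k => height_le (h1 k)
  have h4 : ∀ k, (a k).n ≠ 0 → (a (k + 1)).n < (a k).n := by
    intro k hk
    refine lt_of_le_of_ne (h3 k) fun h => h2 k (mem_of_height hk h.symm)
  have h5 : ∀ k, (a k).n ≤ (a 0).n - k ∨ (a k).n = 0 := by
    intro k
    induction k with
    | zero => left; omega
    | succ k ih =>
      by_cases hk : (a k).n = 0
      · right
        have := h3 k
        omega
      · left
        have := h4 k hk
        omega
  set K := (a 0).n with hK
  have h6 : ∀ k, (a (K + k)).n = 0 := by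
    intro k
    rcases h5 (K + k) with h | h <;> omega
  have h7 : ∀ k, (a (K + k + 1)).x < (a (K + k)).x := by
    intro k
    by_contra hc
    rw [not_lt] at hc
    exact h2 (K + k) (mem_of_zero (h6 k) (h6 (k + 1)) hc)
  have h8 : ∀ k : ℕ, (a (K + k)).x ≤ (a K).x - k := by
    intro k
    induction k with
    | zero => simp
    | succ k ih =>
      have := h7 k
      have e : K + (k + 1) = K + k + 1 := by ring
      rw [e]
      push_cast
      linarith
  have h9 := h8 ((a K).x.toNat + 1)
  have h10 := (a (K + ((a K).x.toNat + 1))).nonneg (h6 _)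
  have h11 := Int.self_le_toNat (a K).x
  push_cast at h9
  linarith

theorem not_acyclic : ¬ Acyclic HM := by
  intro h
  -- `(0, 1) t (1, -1) = t`
  refine h ⟨0, 1, 0, fun _ => le_rfl⟩ ⟨1, -1, 0, fun _ => by norm_num⟩ ⟨0, 0, 1, fun h => by omega⟩
    (Or.inr fun hu => ?_) ?_
  · have := ((isUnit_iff _).1 hu).2
    simp at this
  · ext <;> simp

/-- **Main theorem.** There is a unit-cancellative (even cancellative) monoid that satisfies the
ACCP on principal ideals and is not acyclic. -/
theorem result : ∃ (H : Type) (_ : Monoid H), IsCancelMul H ∧ UnitCancellative H ∧ ACCP H ∧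
    ¬ Acyclic H :=
  ⟨HM, inferInstance, inferInstance, unitCancellative, accp, not_acyclic⟩

end Pool.Agent.Results.MP_1d13cc_al.NotAcyclic
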